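import Pool.Agent.Y157.GT.Stm

/-! # The generic twist: an automorphism which multiplies `ρ` by a constant -/

set_option autoImplicit false
set_option linter.all false

open Polynomial

namespace Pool.Agent.Y157.GT

theorem exists_tau {κ₀ κ : Type} [Field κ₀] [Field κ] [IsAlgClosed κ] [Algebra κ₀ κ] (ρ : κ)
    (hρ : Transcendental κ₀ ρ)
    (halg : Algebra.IsAlgebraic (IntermediateField.adjoin κ₀ {ρ}) κ) (ζ : κ₀) (hζ : ζ ≠ 0) :
    ∃ e : κ ≃+* κ, (∀ c : κ₀, e (algebraMap κ₀ κ c) = algebraMap κ₀ κ c) ∧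
      e ρ = algebraMap κ₀ κ ζ * ρ := by
  have h1 : Algebra.IsAlgebraic (Algebra.adjoin κ₀ {ρ}) κ := by
    open scoped IntermediateField.algebraAdjoinAdjoin in
    exact (IsFractionRing.comap_isAlgebraic_iff (A := Algebra.adjoin κ₀ {ρ})
      (K := IntermediateField.adjoin κ₀ {ρ}) (C := κ)).2 halg
  letI a1 : Algebra κ₀[X] κ := (aeval ρ : κ₀[X] →ₐ[κ₀] κ).toRingHom.toAlgebra
  have hmap : ∀ p : κ₀[X], algebraMap κ₀[X] κ p = aeval ρ p := fun p => rfl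
  have hinj : Function.Injective (algebraMap κ₀[X] κ) := transcendental_iff_injective.1 hρ
  have h2 : Algebra.IsAlgebraic κ₀[X] κ := by
    let f : κ₀[X] →+* Algebra.adjoin κ₀ {ρ} :=
      (aeval (⟨ρ, Algebra.self_mem_adjoin_singleton κ₀ ρ⟩ : Algebra.adjoin κ₀ {ρ}) :
        κ₀[X] →ₐ[κ₀] Algebra.adjoin κ₀ {ρ}).toRingHom
    refine Algebra.IsAlgebraic.of_ringHom_of_comp_eq (R := κ₀[X]) (A := κ)
      (S := Algebra.adjoin κ₀ {ρ}) (B := κ) f (RingHom.id κ) ?_ Function.injective_id ?_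
    · rintro ⟨z, hz⟩
      rw [Algebra.adjoin_singleton_eq_range_aeval] at hz
      obtain ⟨p, hp⟩ := hz
      refine ⟨p, Subtype.ext ?_⟩
      change ((aeval (⟨ρ, _⟩ : Algebra.adjoin κ₀ {ρ}) p : Algebra.adjoin κ₀ {ρ}) : κ) = z
      rw [← hp]
      exact (aeval_algebraMap_apply κ (⟨ρ, Algebra.self_mem_adjoin_singleton κ₀ ρ⟩ :
        Algebra.adjoin κ₀ {ρ}) p).symm
    · refine RingHom.ext fun p => ?_
      change ((aeval (⟨ρ, _⟩ : Algebra.adjoin κ₀ {ρ}) p : Algebra.adjoin κ₀ {ρ}) : κ) = aeval ρ p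
      exact (aeval_algebraMap_apply κ (⟨ρ, Algebra.self_mem_adjoin_singleton κ₀ ρ⟩ :
        Algebra.adjoin κ₀ {ρ}) p).symm
  haveI : FaithfulSMul κ₀[X] κ := (faithfulSMul_iff_algebraMap_injective _ _).2 hinj
  haveI : IsAlgClosure κ₀[X] κ := ⟨inferInstance, h2⟩
  haveI : Invertible ζ := invertibleOfNonzero hζ
  let h : κ₀[X] ≃+* κ₀[X] := (algEquivCMulXAddC ζ 0).toRingEquiv
  have hh : ∀ p, h p = algEquivCMulXAddC ζ 0 p := fun p => rfl
  refine ⟨IsAlgClosure.equivOfEquiv κ κ h, fun c => ?_, ?_⟩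
  · have e1 : algebraMap κ₀ κ c = algebraMap κ₀[X] κ (C c) := by rw [hmap, aeval_C]
    rw [e1, IsAlgClosure.equivOfEquiv_algebraMap, hh]
    congr 1
    simp
  · have e1 : ρ = algebraMap κ₀[X] κ X := by rw [hmap, aeval_X]
    conv_lhs => rw [e1]
    rw [IsAlgClosure.equivOfEquiv_algebraMap, hh, hmap]
    simp

end Pool.Agent.Y157.GT
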