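import Pool.Agent.Y157.GT.Core
import Pool.Agent.Y157.GT.Tau

/-! # The generic twist: from `k(t)` to `κ₀(ρ)` -/

set_option autoImplicit false
set_option linter.all false

open Polynomial FF

namespace Pool.Agent.Y157.GT

open Pool.Agent.Y157.PS

/-- elements of `K` are fixed by a ring homomorphism which fixes `k` and `t` -/
theorem fix_adjoin {k K κ : Type} [Field k] [Field K] [Field κ] [Algebra k K] [Algebra K κ]
    {t : K} (htop : IntermediateField.adjoin k {t} = ⊤) (e : κ →+* κ)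
    (hk : ∀ c : k, e (algebraMap K κ (algebraMap k K c)) = algebraMap K κ (algebraMap k K c))
    (ht : e (algebraMap K κ t) = algebraMap K κ t) (z : K) :
    e (algebraMap K κ z) = algebraMap K κ z := by
  have hz : z ∈ IntermediateField.adjoin k {t} := by rw [htop]; trivial
  rw [IntermediateField.mem_adjoin_simple_iff] at hz
  obtain ⟨p, q, h⟩ := hz
  have hpoly : ∀ p : k[X], e (algebraMap K κ (aeval t p)) = algebraMap K κ (aeval t p) := by
    intro p
    have e1 : algebraMap K κ (aeval t p) =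
        p.eval₂ ((algebraMap K κ).comp (algebraMap k K)) (algebraMap K κ t) := by
      rw [aeval_def]; exact hom_eval₂ _ _ _ _
    rw [e1]
    have h3 : e (p.eval₂ ((algebraMap K κ).comp (algebraMap k K)) (algebraMap K κ t)) =
        p.eval₂ (e.comp ((algebraMap K κ).comp (algebraMap k K))) (e (algebraMap K κ t)) :=
      hom_eval₂ _ _ _ _
    rw [h3, ht]
    congr 1
    ext c
    exact hk c
  rw [h, map_div₀, map_div₀, hpoly, hpoly]

/-- the action on the algebraic closure of `κ₀(x₀)` -/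
theorem stable_range {κ₀ κ R₀ R M₀ M K : Type} [Field κ₀] [Field κ] [Field R₀] [Field R]
    [Field M₀] [Field M] [Field K] [Algebra K κ]
    [Algebra κ₀ κ] [Algebra κ₀ R₀] [Algebra R₀ M₀] [Algebra κ₀ M₀] [IsScalarTower κ₀ R₀ M₀]
    [Algebra κ R] [Algebra R M] [Algebra κ M] [IsScalarTower κ R M] {x₀ : R₀} {x : R} {Y δ}
    {ι : M₀ →+* M} (hx₀ : RatF κ₀ x₀)
    (hc : ∀ c, ι (algebraMap κ₀ M₀ c) = algebraMap κ M (algebraMap κ₀ κ c))
    (hx : ι (algebraMap R₀ M₀ x₀) = algebraMap R M x) (halg : Algebra.IsAlgebraic R₀ M₀)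
    (h33 : ∀ z : M, (∃ p : R₀[X], p ≠ 0 ∧ p.eval₂ (ι.comp (algebraMap R₀ M₀)) z = 0) →
        ∃ z₀, ι z₀ = z)
    (s : (κ ≃ₐ[K] κ) →* RingAut M) (hs : Sec K κ R M x Y δ s)
    (hκ : ∀ (σ : κ ≃ₐ[K] κ) (c : κ₀), ∃ c' : κ₀,
      σ (algebraMap κ₀ κ c) = algebraMap κ₀ κ c') :
    ∀ (σ : κ ≃ₐ[K] κ) z₀, ∃ z₁, s σ (ι z₀) = ι z₁ := by
  intro σ z₀
  have hR : ∀ t : R₀, ∃ t' : R₀, s σ (ι (algebraMap R₀ M₀ t)) = ι (algebraMap R₀ M₀ t') := by
    choose f hf using hκ σ
    have hf0 : Function.Injective (algebraMap κ₀ κ) := (algebraMap κ₀ κ).injective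
    let φ : κ₀ →+* κ₀ :=
      { toFun := f
        map_one' := hf0 (by rw [← hf, map_one, map_one])
        map_mul' := fun a b => hf0 (by rw [← hf, map_mul, map_mul, map_mul, hf, hf])
        map_zero' := hf0 (by rw [← hf, map_zero, map_zero])
        map_add' := fun a b => hf0 (by rw [← hf, map_add, map_add, map_add, hf, hf]) }
    have hpoly : ∀ p : κ₀[X], s σ (ι (algebraMap R₀ M₀ (aeval x₀ p))) =
        ι (algebraMap R₀ M₀ (aeval x₀ (p.map φ))) := by
      intro p
      have e1 : ∀ p : κ₀[X], ι (algebraMap R₀ M₀ (aeval x₀ p)) =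
          p.eval₂ ((ι.comp (algebraMap R₀ M₀)).comp (algebraMap κ₀ R₀))
            ((ι.comp (algebraMap R₀ M₀)) x₀) := by
        intro p
        rw [aeval_def]
        exact hom_eval₂ p (algebraMap κ₀ R₀) (ι.comp (algebraMap R₀ M₀)) x₀
      have e2 : (ι.comp (algebraMap R₀ M₀)) x₀ = algebraMap R M x := hx
      rw [e1, e1, e2, eval₂_map]
      have h3 : (s σ : M →+* M) (p.eval₂ ((ι.comp (algebraMap R₀ M₀)).comp (algebraMap κ₀ R₀))
          (algebraMap R M x)) =
          p.eval₂ ((s σ : M →+* M).comp ((ι.comp (algebraMap R₀ M₀)).comp (algebraMap κ₀ R₀)))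
            ((s σ : M →+* M) (algebraMap R M x)) :=
        hom_eval₂ _ _ _ _
      change (s σ : M →+* M) _ = _
      rw [h3]
      have h4 : (s σ : M →+* M) (algebraMap R M x) = algebraMap R M x := hs.fixx σ
      rw [h4]
      congr 1
      ext c
      change s σ (ι (algebraMap R₀ M₀ (algebraMap κ₀ R₀ c))) =
        ι (algebraMap R₀ M₀ (algebraMap κ₀ R₀ (f c)))
      rw [← IsScalarTower.algebraMap_apply κ₀ R₀ M₀, ← IsScalarTower.algebraMap_apply κ₀ R₀ M₀,
        hc, hc, hs.const, hf]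
    intro t
    obtain ⟨p, q, hq, h⟩ := hx₀.exists_div t
    refine ⟨aeval x₀ (p.map φ) / aeval x₀ (q.map φ), ?_⟩
    rw [h, map_div₀, map_div₀, map_div₀, hpoly, hpoly, map_div₀, map_div₀]
  choose g hg using hR
  have hg0 : Function.Injective (ι.comp (algebraMap R₀ M₀)) := RingHom.injective _
  have hg1 : ∀ a b : R₀, ι (algebraMap R₀ M₀ a) = ι (algebraMap R₀ M₀ b) → a = b :=
    fun a b h => hg0 h
  let ψ : R₀ →+* R₀ :=
    { toFun := g
      map_one' := hg1 _ _ (by rw [← hg]; simp)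
      map_mul' := fun a b => hg1 _ _ (by
        rw [← hg, map_mul, map_mul, map_mul, map_mul, map_mul, hg, hg])
      map_zero' := hg1 _ _ (by rw [← hg]; simp)
      map_add' := fun a b => hg1 _ _ (by
        rw [← hg, map_add, map_add, map_add, map_add, map_add, hg, hg]) }
  obtain ⟨p, hp0, hpz⟩ := halg.isAlgebraic z₀
  obtain ⟨z₁, hz₁⟩ := h33 (s σ (ι z₀)) ⟨p.map ψ, (Polynomial.map_ne_zero_iff ψ.injective).2 hp0, by
    rw [eval₂_map]
    have h3 : (s σ : M →+* M) (p.eval₂ (ι.comp (algebraMap R₀ M₀)) (ι z₀)) =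
        p.eval₂ ((s σ : M →+* M).comp (ι.comp (algebraMap R₀ M₀))) ((s σ : M →+* M) (ι z₀)) :=
      hom_eval₂ _ _ _ _
    have h4 : p.eval₂ (ι.comp (algebraMap R₀ M₀)) (ι z₀) = ι (aeval z₀ p) := by
      rw [aeval_def]
      exact (hom_eval₂ p (algebraMap R₀ M₀) ι z₀).symm
    rw [h4, hpz, map_zero, map_zero] at h3
    rw [h3]
    symm
    change p.eval₂ _ (s σ (ι z₀)) = p.eval₂ _ (s σ (ι z₀))
    congr 1
    ext t
    exact (hg t)⟩
  exact ⟨z₁, hz₁.symm⟩

theorem gt (hEXF : S_EXF) (hUNQ : S_UNQ) (hSTAB : S_STAB) (hCONJ : S_CONJ) (hGEX : S_GEX)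
    (hPAIR : S_PAIR) (hTPL : S_TPL) (hGEN3 : S_GEN3) (hPT : S_PT) : S_GT := by
  intro ℓ _ k K κ R M _ _ _ _ _ _ _ _ _ _ _ _ _ hfg t ht htop c m δ hc hm hδ x B Y hC hB s hs
  have hp := (Fact.out : ℓ.Prime).pos
  haveI hac : IsAlgClosed κ := IsAlgClosure.isAlgClosed K
  haveI : CharZero K := charZero_of_injective_algebraMap (algebraMap k K).injective
  haveI : CharZero κ := charZero_of_injective_algebraMap (algebraMap K κ).injective
  letI : Algebra k κ := ((algebraMap K κ).comp (algebraMap k K)).toAlgebra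
  haveI : IsScalarTower k K κ := IsScalarTower.of_algebraMap_eq fun _ => rfl
  have halgK : Algebra.IsAlgebraic K κ := IsAlgClosure.isAlgebraic
  haveI : IsAlgClosed (algebraicClosure k κ) := IsAlgClosure.isAlgClosed k
  haveI : CharZero (algebraicClosure k κ) :=
    charZero_of_injective_algebraMap (algebraMap k (algebraicClosure k κ)).injective
  -- the element `ρ`
  obtain ⟨a, b, hab⟩ : ∃ a b : ℤ, a * m + b * ℓ = 1 := by
    have h1 : IsCoprime (ℓ : ℤ) m :=
      (Prime.coprime_iff_not_dvd (Nat.prime_iff_prime_int.1 (Fact.out : ℓ.Prime))).2 hm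
    obtain ⟨u, v, h⟩ := h1
    exact ⟨v, u, by linarith⟩
  set t' : κ := algebraMap K κ t with ht'
  set c' : κ := algebraMap k κ c with hc'
  have ht'0 : t' ≠ 0 := by
    intro h
    apply ht
    have : t = 0 := (_root_.map_eq_zero (algebraMap K κ)).1 h
    rw [this]
    exact isAlgebraic_zero
  have hc'0 : c' ≠ 0 := (_root_.map_ne_zero _).2 hc
  have hδ' : δ ^ (ℓ : ℤ) = c' * t' ^ m := by
    rw [zpow_natCast, hδ, map_mul, map_zpow₀]; rfl
  have hδ0 : δ ≠ 0 := by
    rintro rfl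
    rw [zero_zpow _ (by exact_mod_cast hp.ne')] at hδ'
    exact (mul_ne_zero hc'0 (zpow_ne_zero m ht'0)) hδ'.symm
  obtain ⟨ρ, hρdef⟩ : ∃ ρ : κ, ρ = δ ^ a * t' ^ b := ⟨_, rfl⟩
  have hρℓ : ρ ^ (ℓ : ℤ) = c' ^ a * t' := by
    rw [hρdef, mul_zpow, ← zpow_mul, ← zpow_mul, mul_comm a, zpow_mul, hδ', mul_zpow, ← zpow_mul,
      mul_assoc, ← zpow_add₀ ht'0]
    congr 1
    have : m * a + b * (ℓ : ℤ) = 1 := by linarith
    rw [this, zpow_one]
  have hρm : c' ^ b * ρ ^ m = δ := by
    rw [hρdef, mul_zpow, ← zpow_mul, ← zpow_mul]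
    have h1 : δ ^ (a * m) = δ * (δ ^ (ℓ : ℤ)) ^ (-b) := by
      rw [← zpow_mul, ← zpow_one_add₀ hδ0]
      congr 1
      linarith
    rw [h1, hδ', mul_zpow, ← zpow_mul]
    have h2 : c' ^ b * (δ * (c' ^ (-b) * t' ^ (m * -b)) * t' ^ (b * m)) =
        (c' ^ b * c' ^ (-b)) * (t' ^ (m * -b) * t' ^ (b * m)) * δ := by ring
    rw [h2, ← zpow_add₀ hc'0, ← zpow_add₀ ht'0]
    have h3 : m * -b + b * m = 0 := by ring
    rw [add_neg_cancel, h3, zpow_zero, zpow_zero, one_mul, one_mul]
  have ht'ρ : t' = c' ^ (-a) * ρ ^ (ℓ : ℤ) := by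
    rw [hρℓ, ← mul_assoc, ← zpow_add₀ hc'0, neg_add_cancel, zpow_zero, one_mul]
  have hρ0 : ρ ≠ 0 := by
    rw [hρdef]
    exact mul_ne_zero (zpow_ne_zero _ hδ0) (zpow_ne_zero _ ht'0)
  -- the fields `k(ρ)` and `κ₀(ρ)`
  have hKL : ∀ z : K, algebraMap K κ z ∈ IntermediateField.adjoin k {ρ} := by
    intro z
    have hz : z ∈ IntermediateField.adjoin k {t} := by rw [htop]; trivial
    have h4 : (IntermediateField.adjoin k {t}).map (IsScalarTower.toAlgHom k K κ) =
        IntermediateField.adjoin k {t'} := by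
      rw [IntermediateField.adjoin_map, Set.image_singleton]; rfl
    have h5 : IntermediateField.adjoin k {t'} ≤ IntermediateField.adjoin k {ρ} := by
      rw [IntermediateField.adjoin_simple_le_iff, ht'ρ]
      refine mul_mem (zpow_mem (IntermediateField.algebraMap_mem _ c) _) (zpow_mem ?_ _)
      exact IntermediateField.mem_adjoin_simple_self k ρ
    apply h5
    rw [← h4]
    exact ⟨z, hz, rfl⟩
  let i : K →+* IntermediateField.adjoin k {ρ} :=
    (algebraMap K κ).codRestrict (IntermediateField.adjoin k {ρ}).toSubfield.toSubring hKL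
  letI : Algebra K (IntermediateField.adjoin k {ρ}) := i.toAlgebra
  haveI : IsScalarTower K (IntermediateField.adjoin k {ρ}) κ :=
    IsScalarTower.of_algebraMap_eq fun z => rfl
  have hρk : Transcendental k ρ := by
    intro h
    apply ht
    have h1 : IsAlgebraic k t' := by
      rw [ht'ρ, zpow_natCast]
      refine IsAlgebraic.mul ?_ (h.pow ℓ)
      have h2 : c' ^ (-a) = algebraMap k κ (c ^ (-a)) := by rw [map_zpow₀]
      rw [h2]
      exact isAlgebraic_algebraMap _
    exact (isAlgebraic_algebraMap_iff (algebraMap K κ).injective).1 h1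
  have hρ : Transcendental (algebraicClosure k κ) ρ := hρk.algebraicClosure
  have hKL₀ : ∀ z : K, algebraMap K κ z ∈
      IntermediateField.adjoin (algebraicClosure k κ) {ρ} := by
    intro z
    have h1 : IntermediateField.adjoin k {ρ} ≤
        (IntermediateField.adjoin (algebraicClosure k κ) {ρ}).restrictScalars k := by
      rw [IntermediateField.adjoin_simple_le_iff]
      exact IntermediateField.mem_adjoin_simple_self _ ρ
    exact h1 (hKL z)
  have halg : Algebra.IsAlgebraic (IntermediateField.adjoin (algebraicClosure k κ) {ρ}) κ := by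
    let i₀ : K →+* IntermediateField.adjoin (algebraicClosure k κ) {ρ} :=
      (algebraMap K κ).codRestrict
        (IntermediateField.adjoin (algebraicClosure k κ) {ρ}).toSubfield.toSubring hKL₀
    letI : Algebra K (IntermediateField.adjoin (algebraicClosure k κ) {ρ}) := i₀.toAlgebra
    haveI : IsScalarTower K (IntermediateField.adjoin (algebraicClosure k κ) {ρ}) κ :=
      IsScalarTower.of_algebraMap_eq fun z => rfl
    exact Algebra.IsAlgebraic.tower_top (K := K) _
  -- the pair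
  have hBκ : ∀ e ∈ B, ∃ e₀ : algebraicClosure k κ, algebraMap (algebraicClosure k κ) κ e₀ = e := by
    intro e he
    obtain ⟨P, hP0, hP⟩ := hB e he
    exact ⟨⟨e, mem_algebraicClosure_iff.2 ⟨P, hP0, hP⟩⟩, rfl⟩
  obtain ⟨R₀, M₀, _, _, _, _, _, _, x₀, B₀, Y₀, ι, hPr⟩ :=
    hPAIR ℓ (algebraicClosure k κ) κ R M x B Y hC hBκ
  obtain ⟨F, _, V, r, hcoef, ⟨D⟩⟩ := hTPL ℓ (algebraicClosure k κ) κ ρ hρ halg
  obtain ⟨h31, h32, h33⟩ := hGEN3 ℓ (algebraicClosure k κ) κ R₀ R M₀ M x₀ x B₀ B Y₀ Y ι hPr F V r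
    hcoef D
  have hGood : Good V B := by
    refine ⟨fun e he => ?_, fun e he e' he' hne => ?_⟩
    · obtain ⟨e₀, h⟩ := hBκ e he
      rw [← h]
      exact hcoef.mem e₀
    · obtain ⟨e₀, h⟩ := hBκ e he
      obtain ⟨e₀', h'⟩ := hBκ e' he'
      refine ⟨sub_ne_zero.2 hne, ?_, ?_⟩
      · rw [← h, ← h', ← map_sub]
        exact hcoef.mem _
      · rw [← h, ← h', ← map_sub, ← map_inv₀]
        exact hcoef.mem _
  have hRot := hGEX ℓ κ R M x B Y hC F V r hcoef.res hGood D
  have hκ : ∀ (σ : κ ≃ₐ[K] κ) (c : algebraicClosure k κ), ∃ c' : algebraicClosure k κ,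
      σ (algebraMap (algebraicClosure k κ) κ c) = algebraMap (algebraicClosure k κ) κ c' := by
    intro σ c
    refine ⟨⟨σ (algebraMap (algebraicClosure k κ) κ c), ?_⟩, rfl⟩
    rw [mem_algebraicClosure_iff]
    have h1 : IsAlgebraic k (algebraMap (algebraicClosure k κ) κ c) :=
      mem_algebraicClosure_iff.1 c.2
    exact h1.algHom (σ.restrictScalars k : κ ≃ₐ[k] κ).toAlgHom
  have hgal₀ : Algebra.IsAlgebraic R₀ M₀ := by
    have := hPr.cov₀.gal
    infer_instance
  have hst := stable_range hPr.cov₀.rat hPr.const hPr.var hgal₀ h33 s hs hκ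
  -- the section over `k(ρ)`
  let res : (κ ≃ₐ[IntermediateField.adjoin k {ρ}] κ) →* (κ ≃ₐ[K] κ) :=
    AlgEquiv.restrictScalarsHom K
  have hres : ∀ σ z, res σ z = σ z := fun σ z => rfl
  have hρL : ∀ σ : κ ≃ₐ[IntermediateField.adjoin k {ρ}] κ, σ ρ = ρ := fun σ =>
    σ.commutes ⟨ρ, IntermediateField.mem_adjoin_simple_self k ρ⟩
  have hkL : ∀ (σ : κ ≃ₐ[IntermediateField.adjoin k {ρ}] κ) (d : k),
      σ (algebraMap k κ d) = algebraMap k κ d := fun σ d =>
    σ.commutes (algebraMap k _ d)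
  have hδL : ∀ σ : κ ≃ₐ[IntermediateField.adjoin k {ρ}] κ, σ δ = δ := by
    intro σ
    rw [← hρm, map_mul, map_zpow₀, map_zpow₀, hρL, hc', hkL]
  have hsL : Sec (IntermediateField.adjoin k {ρ}) κ R M x Y 1 (s.comp res) := by
    refine ⟨fun σ d => ?_, fun σ => ?_, fun σ => ?_, fun z => ?_⟩
    · exact hs.const (res σ) d
    · exact hs.fixx (res σ)
    · have h1 := hs.fixy (res σ)
      rw [hres, hδL, div_self hδ0, map_one, one_mul] at h1
      change s (res σ) Y = _
      rw [h1, map_one, div_one, map_one, one_mul]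
    · obtain ⟨E, hE, hEz⟩ := hs.cont z
      obtain ⟨α, hα⟩ := Field.exists_primitive_element K E
      refine ⟨IntermediateField.adjoin (IntermediateField.adjoin k {ρ}) {(α : κ)}, ?_, ?_⟩
      · refine IntermediateField.adjoin.finiteDimensional ?_
        have h1 : IsAlgebraic K (α : κ) := halgK.isAlgebraic _
        exact (IsAlgebraic.tower_top (IntermediateField.adjoin k {ρ}) h1).isIntegral
      · intro σ hσ
        apply hEz
        have hσα : σ (α : κ) = α :=
          (IntermediateField.mem_fixingSubgroup_iff _ _).1 hσ _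
            (IntermediateField.mem_adjoin_simple_self _ _)
        rw [IntermediateField.mem_fixingSubgroup_iff]
        intro y hy
        have h2 : E = IntermediateField.adjoin K {(α : κ)} := by
          have h3 := congrArg IntermediateField.lift hα
          rw [IntermediateField.lift_adjoin_simple, IntermediateField.lift_top] at h3
          exact h3.symm
        rw [h2, IntermediateField.mem_adjoin_simple_iff] at hy
        obtain ⟨p, q, hy⟩ := hy
        have h4 : ∀ p : K[X], res σ (aeval (α : κ) p) = aeval (α : κ) p := by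
          intro p
          have h5 : (res σ).toAlgHom (aeval (α : κ) p) = aeval ((res σ).toAlgHom (α : κ)) p :=
            (aeval_algHom_apply _ _ _).symm
          have h6 : (res σ).toAlgHom (α : κ) = α := hσα
          rw [h6] at h5
          exact h5
        rw [hy, map_div₀, h4, h4]
  -- elements which fix `κ₀` and `δ`
  have hPT' : ∀ g : κ ≃ₐ[K] κ, (∀ c : algebraicClosure k κ,
      g (algebraMap (algebraicClosure k κ) κ c) = algebraMap (algebraicClosure k κ) κ c) →
      g δ = δ → ∀ z₀, s g (ι z₀) = ι z₀ := by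
    intro g hg hgδ
    have hgρ : g ρ = ρ := by
      rw [hρdef, map_mul, map_zpow₀, map_zpow₀, hgδ, ht', g.commutes]
    have hgL : ∀ z ∈ IntermediateField.adjoin k {ρ}, g z = z := by
      intro z hz
      rw [IntermediateField.mem_adjoin_simple_iff] at hz
      obtain ⟨p, q, hz⟩ := hz
      have h4 : ∀ p : k[X], g (aeval ρ p) = aeval ρ p := by
        intro p
        have h5 : (g.restrictScalars k : κ ≃ₐ[k] κ).toAlgHom (aeval ρ p) =
            aeval ((g.restrictScalars k : κ ≃ₐ[k] κ).toAlgHom ρ) p :=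
          (aeval_algHom_apply _ _ _).symm
        have h6 : (g.restrictScalars k : κ ≃ₐ[k] κ).toAlgHom ρ = ρ := hgρ
        rw [h6] at h5
        exact h5
      rw [hz, map_div₀, h4, h4]
    let g' : κ ≃ₐ[IntermediateField.adjoin k {ρ}] κ :=
      AlgEquiv.ofRingEquiv (f := (g : κ ≃+* κ)) (fun z => hgL z z.2)
    have hg' : res g' = g := by
      ext z; rfl
    have h1 := hPT ℓ k (algebraicClosure k κ) κ R₀ R M₀ M hfg ρ hρ halg x₀ x B₀ B Y₀ Y ι hPr
      (s.comp res) hsL (fun σ z₀ => hst (res σ) z₀) g' hg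
    intro z₀
    have h2 := h1 z₀
    change s (res g') (ι z₀) = _ at h2
    rwa [hg'] at h2
  -- the element `τ`
  haveI : NeZero (ℓ : algebraicClosure k κ) := ⟨by exact_mod_cast hp.ne'⟩
  obtain ⟨ζ, hζ⟩ := HasEnoughRootsOfUnity.exists_primitiveRoot (algebraicClosure k κ) ℓ
  obtain ⟨e, he, heρ⟩ := exists_tau ρ hρ halg ζ (hζ.ne_zero hp.ne')
  have hek : ∀ d : k, e (algebraMap k κ d) = algebraMap k κ d := fun d => he (algebraMap k _ d)
  have het : e t' = t' := by
    rw [ht'ρ, map_mul, map_zpow₀, map_zpow₀, heρ, hc', hek, mul_zpow]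
    congr 1
    rw [zpow_natCast, zpow_natCast, ← map_pow, hζ.pow_eq_one, map_one, one_mul]
  let τ : κ ≃ₐ[K] κ := AlgEquiv.ofRingEquiv (f := e)
    (fun z => fix_adjoin htop (e : κ →+* κ) hek het z)
  have hτδ : τ δ ≠ δ := by
    intro h
    change e δ = δ at h
    have h1 : e δ = algebraMap (algebraicClosure k κ) κ (ζ ^ m) * δ := by
      rw [← hρm, map_mul, map_zpow₀, map_zpow₀, heρ, hc', hek, mul_zpow, map_zpow₀]
      ring
    rw [h1] at h
    have h2 : algebraMap (algebraicClosure k κ) κ (ζ ^ m) = 1 :=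
      mul_right_cancel₀ hδ0 (h.trans (one_mul δ).symm)
    have h3 : ζ ^ m = 1 := by
      apply (algebraMap (algebraicClosure k κ) κ).injective
      rw [h2, map_one]
    exact hm ((hζ.zpow_eq_one_iff_dvd m).1 h3)
  exact core hEXF hUNQ hSTAB hCONJ ℓ (algebraicClosure k κ) κ R₀ R M₀ M x₀ x B₀ B Y₀ Y ι hPr
    h31 h32 h33 V hRot K δ hδ0 ⟨_, hδ⟩ s hs hκ hst hPT' τ he hτδ

end Pool.Agent.Y157.GT
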