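import Pool.Agent.Y157.GT.GeoA
import Pool.Agent.Y157.PS.Ind2

/-! # The generic twist: sections of `Gal(M/F)` where `M` contains the maximal geometrically
pro-`ℓ` extension -/

set_option autoImplicit false
set_option linter.all false

open Polynomial FF

namespace Pool.Agent.Y157.GT

open Pool.Agent.Y157.PS

section main

variable {k K F Ω : Type} [Field k] [CharZero k] [Field K] [Algebra k K]
    [Field F] [Field Ω] [Algebra K F] [Algebra F Ω] [Algebra K Ω] [IsScalarTower K F Ω]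
    [IsAlgClosed Ω] [Algebra.IsAlgebraic F Ω]

theorem gen (hGT : S_GT) {ℓ : ℕ} [Fact ℓ.Prime]
    (hfg : (⊤ : IntermediateField ℚ k).FG)
    (t : K) (ht : Transcendental k t) (htop : IntermediateField.adjoin k {t} = ⊤)
    (f : k[X]) (hf : f.Separable) (hdvd : ℓ ∣ f.natDegree)
    (h3 : 3 ≤ f.natDegree) (c₀ : k) (hc₀ : c₀ ≠ 0) (d : K) (m : ℤ) (hm : ¬ (ℓ : ℤ) ∣ m)
    (hd : d = algebraMap k K c₀ * t ^ m)
    (x y : F) (hx : Transcendental K x)
    (hxy : algebraMap K F d * y ^ ℓ = aeval x (f.map (algebraMap k K)))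
    (hF : IntermediateField.adjoin K {x, y} = (⊤ : IntermediateField K F))
    (S : (algebraicClosure K Ω ≃ₐ[K] algebraicClosure K Ω) →*
      (geomPro ℓ K F Ω ≃ₐ[F] geomPro ℓ K F Ω)) (hcont : Continuous S)
    (hcompat : ∀ σ (c : algebraicClosure K Ω) (z : geomPro ℓ K F Ω), (z : Ω) = (c : Ω) →
      (S σ z : Ω) = (σ c : Ω)) :
    ∃ W : ValuationSubring (geomPro ℓ K F Ω),
      ((∀ c : K, algebraMap F (geomPro ℓ K F Ω) (algebraMap K F c) ∈ W) ∧
       (∃ e : K, aeval e (f.map (algebraMap k K)) = 0 ∧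
          algebraMap F (geomPro ℓ K F Ω) (x - algebraMap K F e) ∈ W.nonunits) ∧
       (∀ z : F, algebraMap F (geomPro ℓ K F Ω) z ∈ W →
          ∃ c : K, algebraMap F (geomPro ℓ K F Ω) (z - algebraMap K F c) ∈ W.nonunits) ∧
       ∀ σ z, S σ z ∈ W ↔ z ∈ W) ∧
      ∀ W' : ValuationSubring (geomPro ℓ K F Ω),
        (∀ c : K, algebraMap F (geomPro ℓ K F Ω) (algebraMap K F c) ∈ W') →
        algebraMap F (geomPro ℓ K F Ω) (aeval x (f.map (algebraMap k K))) ∈ W'.nonunits →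
        (∀ σ z, S σ z ∈ W' ↔ z ∈ W') → W' = W := by
  have hcK : CharZero K := charZero_of_injective_algebraMap (algebraMap k K).injective
  have hac : IsAlgClosure K (algebraicClosure K Ω) := inferInstance
  have : Normal K (algebraicClosure K Ω) := IsAlgClosure.normal K _
  have hGal : IsGalois K (algebraicClosure K Ω) := ⟨⟩
  obtain ⟨W, ⟨h1, h2, ⟨e, he0, hfix, z', hz', hz'e⟩, h4⟩, hun⟩ :=
    geo hGT a_cov hfg t ht htop f hf hdvd h3 c₀ hc₀ d m hm hd x y hx hxy hF S hcont hcompat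
  have hrat : ∀ c : algebraicClosure K Ω, (∀ σ : algebraicClosure K Ω ≃ₐ[K]
      algebraicClosure K Ω, σ c = c) → ∃ c' : K, algebraMap K (algebraicClosure K Ω) c' = c := by
    intro c hc
    have h5 := (InfiniteGalois.mem_bot_iff_fixed c).2 hc
    exact IntermediateField.mem_bot.1 h5
  refine ⟨W, ⟨h1, ?_, ?_, h4⟩, hun⟩
  · obtain ⟨e', rfl⟩ := hrat e fun σ => hfix σ
    refine ⟨e', ?_, ?_⟩
    · rw [aeval_algebraMap_apply] at he0
      exact (_root_.map_eq_zero _).1 he0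
    · have h5 : algebraMap F (geomPro ℓ K F Ω) (x - algebraMap K F e') = z' := by
        apply Subtype.ext
        rw [hz'e]
        change algebraMap F Ω (x - algebraMap K F e') = _
        rw [map_sub, ← IsScalarTower.algebraMap_apply]
        rfl
      rw [h5]
      exact hz'
  · intro z hz
    obtain ⟨c, w, hw, hwc⟩ := h2 _ hz
    obtain ⟨c', rfl⟩ := hrat c fun σ => res_fixed _ W h1 σ (S σ) (h4 σ)
      (fun c z hz => hcompat σ c z hz) z c w hw hwc
    refine ⟨c', ?_⟩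
    have h5 : algebraMap F (geomPro ℓ K F Ω) (z - algebraMap K F c') = w := by
      apply Subtype.ext
      rw [hwc]
      change algebraMap F Ω (z - algebraMap K F c') = _
      rw [map_sub, ← IsScalarTower.algebraMap_apply]
      rfl
    rw [h5]
    exact hw

theorem genM (hGT : S_GT) {ℓ : ℕ} [Fact ℓ.Prime]
    (hfg : (⊤ : IntermediateField ℚ k).FG)
    (t : K) (ht : Transcendental k t) (htop : IntermediateField.adjoin k {t} = ⊤)
    (f : k[X]) (hf : f.Separable) (hdvd : ℓ ∣ f.natDegree)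
    (h3 : 3 ≤ f.natDegree) (c₀ : k) (hc₀ : c₀ ≠ 0) (d : K) (m : ℤ) (hm : ¬ (ℓ : ℤ) ∣ m)
    (hd : d = algebraMap k K c₀ * t ^ m)
    (x y : F) (hx : Transcendental K x)
    (hxy : algebraMap K F d * y ^ ℓ = aeval x (f.map (algebraMap k K)))
    (hF : IntermediateField.adjoin K {x, y} = (⊤ : IntermediateField K F))
    (M : IntermediateField F Ω) (hM : geomPro ℓ K F Ω ≤ M)
    (S : (algebraicClosure K Ω ≃ₐ[K] algebraicClosure K Ω) →* (M ≃ₐ[F] M)) (hcont : Continuous S)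
    (hcompat : ∀ σ (c : algebraicClosure K Ω) (z : M), (z : Ω) = (c : Ω) →
      (S σ z : Ω) = (σ c : Ω)) :
    ∃ W : ValuationSubring M,
      (((∀ c : K, algebraMap F M (algebraMap K F c) ∈ W) ∧
       (∃ e : K, aeval e (f.map (algebraMap k K)) = 0 ∧
          algebraMap F M (x - algebraMap K F e) ∈ W.nonunits) ∧
       (∀ z : F, algebraMap F M z ∈ W →
          ∃ c : K, algebraMap F M (z - algebraMap K F c) ∈ W.nonunits)) ∧
       ∀ σ, ∀ z : M, (z : Ω) ∈ geomPro ℓ K F Ω → (S σ z ∈ W ↔ z ∈ W)) ∧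
      ∀ W' : ValuationSubring M,
        (∀ c : K, algebraMap F M (algebraMap K F c) ∈ W') →
        algebraMap F M (aeval x (f.map (algebraMap k K))) ∈ W'.nonunits →
        (∀ σ, ∀ z : M, (z : Ω) ∈ geomPro ℓ K F Ω → (S σ z ∈ W' ↔ z ∈ W')) →
        ∀ z : M, (z : Ω) ∈ geomPro ℓ K F Ω → (z ∈ W' ↔ z ∈ W) := by
  have hcK : CharZero K := charZero_of_injective_algebraMap (algebraMap k K).injective
  have ht0 : t ≠ 0 := by
    rintro rfl
    exact ht isAlgebraic_zero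
  have hd0 : d ≠ 0 := by
    rw [hd]
    exact mul_ne_zero ((_root_.map_ne_zero _).2 hc₀) (zpow_ne_zero _ ht0)
  have halg := alg_of_eqn (Fact.out : ℓ.Prime).pos (f.map (algebraMap k K)) d hd0 x y hxy hF
  obtain ⟨T, hTc, hT⟩ := a_ind2 ℓ K F Ω x hx halg M hM _ S hcont
  have hTcompat : ∀ σ (c : algebraicClosure K Ω) (z : geomPro ℓ K F Ω), (z : Ω) = (c : Ω) →
      (T σ z : Ω) = (σ c : Ω) := by
    intro σ c z hz
    have h1 : (z : Ω) ∈ M := hM z.2
    rw [hT σ ⟨(z : Ω), h1⟩ z rfl]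
    exact hcompat σ c _ hz
  obtain ⟨W₀, ⟨h1, h2, h3', h4⟩, hun⟩ := gen hGT hfg t ht htop f hf hdvd h3 c₀ hc₀ d m hm hd x y hx
    hxy hF T hTc hTcompat
  obtain ⟨W, ⟨⟨hW1, hW2, hW3⟩, hW4⟩, hWun⟩ := lift_thm (geomPro ℓ K F Ω) M hM S T (fun _ => True) hT
    (fun L W => (∀ c : K, algebraMap F L (algebraMap K F c) ∈ W) ∧
       (∃ e : K, aeval e (f.map (algebraMap k K)) = 0 ∧
          algebraMap F L (x - algebraMap K F e) ∈ W.nonunits) ∧
       (∀ z : F, algebraMap F L z ∈ W →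
          ∃ c : K, algebraMap F L (z - algebraMap K F c) ∈ W.nonunits))
    (fun L W => (∀ c : K, algebraMap F L (algebraMap K F c) ∈ W) ∧
      algebraMap F L (aeval x (f.map (algebraMap k K))) ∈ W.nonunits)
    (by
      rintro W ⟨a1, ⟨e, he, a2⟩, a3⟩
      refine ⟨a1, ⟨e, he, (non_incl ((IntermediateField.inclusion hM :
        geomPro ℓ K F Ω →ₐ[F] M) : geomPro ℓ K F Ω →+* M) W _).1 a2⟩, fun z hz => ?_⟩
      obtain ⟨c, hc⟩ := a3 z hz
      exact ⟨c, (non_incl ((IntermediateField.inclusion hM :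
        geomPro ℓ K F Ω →ₐ[F] M) : geomPro ℓ K F Ω →+* M) W _).1 hc⟩)
    (by
      rintro W ⟨a1, a2⟩
      exact ⟨a1, (non_incl _ _ _).2 a2⟩)
    ⟨W₀, ⟨⟨h1, h2, h3'⟩, fun σ _ z => h4 σ z⟩, fun W' hW' hst =>
      hun W' hW'.1 hW'.2 fun σ z => hst σ trivial z⟩
  exact ⟨W, ⟨⟨hW1, hW2, hW3⟩, fun σ z hz => hW4 σ trivial z hz⟩, fun W' b1 b2 b3 z hz =>
    hWun W' ⟨b1, b2⟩ (fun σ _ z hz => b3 σ z hz) z hz⟩

end main

end Pool.Agent.Y157.GT
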