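import Pool.Agent.Y157.PS.Stm3

/-!
# The generic twist: statements of the parts

(helper157, project GT.)  Every part is a `def S_X : Prop`; its proof is `theorem x : S_X` in a file
of its own; a part may use other parts as hypotheses.

`κ₀ ⊆ κ` are algebraically closed fields of characteristic zero, and `M₀`, `M` are covering fields
(structure `Cov` of project PS) of `κ₀(x₀)`, `κ(x)` for the same branch points.
-/

set_option autoImplicit false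
set_option linter.all false

open Polynomial FF

namespace Pool.Agent.Y157.GT

open Pool.Agent.Y157.PS

/-- two covering fields, over `κ₀ ⊆ κ`, with the same branch points -/
structure Pair (ℓ : ℕ) (κ₀ κ R₀ R M₀ M : Type) [Field κ₀] [Field κ] [Field R₀] [Field R]
    [Field M₀] [Field M] [Algebra κ₀ κ] [Algebra κ₀ R₀] [Algebra R₀ M₀] [Algebra κ₀ M₀]
    [IsScalarTower κ₀ R₀ M₀] [Algebra κ R] [Algebra R M] [Algebra κ M] [IsScalarTower κ R M]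
    (x₀ : R₀) (x : R) (B₀ : Finset κ₀) (B : Finset κ) (Y₀ : M₀) (Y : M) (ι : M₀ →+* M) :
    Prop where
  cov₀ : Cov ℓ κ₀ R₀ M₀ x₀ B₀ Y₀
  cov : Cov ℓ κ R M x B Y
  branch : ∀ e, e ∈ B ↔ ∃ e₀ ∈ B₀, algebraMap κ₀ κ e₀ = e
  const : ∀ c, ι (algebraMap κ₀ M₀ c) = algebraMap κ M (algebraMap κ₀ κ c)
  var : ι (algebraMap R₀ M₀ x₀) = algebraMap R M x
  root : ι Y₀ = Y

/-- existence of the pair -/
def S_PAIR : Prop :=
  ∀ (ℓ : ℕ) [Fact ℓ.Prime] (κ₀ κ R M : Type) [Field κ₀] [IsAlgClosed κ₀] [CharZero κ₀] [Field κ]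
    [IsAlgClosed κ] [CharZero κ] [Algebra κ₀ κ] [Field R] [Field M] [Algebra κ R] [Algebra R M]
    [Algebra κ M] [IsScalarTower κ R M] (x : R) (B : Finset κ) (Y : M), Cov ℓ κ R M x B Y →
    (∀ e ∈ B, ∃ e₀ : κ₀, algebraMap κ₀ κ e₀ = e) →
    ∃ (R₀ M₀ : Type) (_ : Field R₀) (_ : Field M₀) (_ : Algebra κ₀ R₀) (_ : Algebra R₀ M₀)
      (_ : Algebra κ₀ M₀) (_ : IsScalarTower κ₀ R₀ M₀) (x₀ : R₀) (B₀ : Finset κ₀) (Y₀ : M₀)
      (ι : M₀ →+* M), Pair ℓ κ₀ κ R₀ R M₀ M x₀ x B₀ B Y₀ Y ι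

/-! ## The geometric part: `M` is the compositum of `M₀` and `κ` -/

/-- `V` is a valuation ring of `κ` with residue field `κ₀`, with residue map `r` -/
structure Coef (κ₀ : Type) {κ F : Type} [Field κ₀] [Field κ] [Field F] [Algebra κ₀ κ]
    (V : ValuationSubring κ) (r : V →+* F) : Prop where
  res : Res V r
  mem : ∀ c : κ₀, algebraMap κ₀ κ c ∈ V
  surj : ∀ y : F, ∃ c : κ₀, r ⟨algebraMap κ₀ κ c, mem c⟩ = y

/-- discs for arbitrary discrete valuation rings (no condition on the residue field) -/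
def S_NDISC2 : Prop :=
  ∀ (A k κ : Type) [CommRing A] [IsDomain A] [IsDiscreteValuationRing A] [Field k] [Field κ]
    [Algebra A k] [Algebra k κ] [Algebra A κ] [IsScalarTower A k κ] [IsFractionRing A k]
    [CharZero k] [IsAlgClosure k κ]
    (V : ValuationSubring κ), (∀ a : A, algebraMap A κ a ∈ V) →
    (∀ a ∈ IsLocalRing.maximalIdeal A, algebraMap A κ a ∈ V.nonunits) →
    ∀ (ℓ : ℕ) [Fact ℓ.Prime], IsUnit (ℓ : A) →
      ∃ (F : Type) (_ : Field F) (r : V →+* F), Res V r ∧ Nonempty (Disc ℓ V r)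

/-- a valuation ring with residue field `κ₀` and with a disc -/
def S_TPL : Prop :=
  ∀ (ℓ : ℕ) [Fact ℓ.Prime] (κ₀ κ : Type) [Field κ₀] [IsAlgClosed κ₀] [CharZero κ₀] [Field κ]
    [IsAlgClosed κ] [Algebra κ₀ κ] (ρ : κ), Transcendental κ₀ ρ →
    Algebra.IsAlgebraic (IntermediateField.adjoin κ₀ {ρ}) κ →
    ∃ (F : Type) (_ : Field F) (V : ValuationSubring κ) (r : V →+* F), Coef κ₀ V r ∧
      Nonempty (Disc ℓ V r)

/-- the residue field of a finite level -/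
def S_GEN1 : Prop :=
  ∀ (ℓ : ℕ) [Fact ℓ.Prime] (κ₀ κ R₀ R M₀ M : Type) [Field κ₀] [IsAlgClosed κ₀] [CharZero κ₀]
    [Field κ] [IsAlgClosed κ] [CharZero κ] [Field R₀] [Field R] [Field M₀] [Field M]
    [Algebra κ₀ κ] [Algebra κ₀ R₀] [Algebra R₀ M₀] [Algebra κ₀ M₀] [IsScalarTower κ₀ R₀ M₀]
    [Algebra κ R] [Algebra R M] [Algebra κ M] [IsScalarTower κ R M] (x₀ : R₀) (x : R)
    (B₀ : Finset κ₀) (B : Finset κ) (Y₀ : M₀) (Y : M) (ι : M₀ →+* M),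
    Pair ℓ κ₀ κ R₀ R M₀ M x₀ x B₀ B Y₀ Y ι →
    ∀ (F : Type) [Field F] (V : ValuationSubring κ) (r : V →+* F), Coef κ₀ V r →
    ∀ O : ValuationSubring M, Gauss V (algebraMap R M x) O →
      (∀ z₀ : M₀, z₀ ≠ 0 → IsU O (ι z₀)) ∧
      ∀ N₀ : IntermediateField R₀ M₀, FiniteDimensional R₀ N₀ →
        ∀ z ∈ IntermediateField.adjoin R (ι '' (N₀ : Set M₀)), z ∈ O →
          ∃ z₀ ∈ N₀, z - ι z₀ ∈ O.nonunits

/-- `M` is the compositum of `M₀` and `κ(x)` -/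
def S_GEN2 : Prop :=
  ∀ (ℓ : ℕ) [Fact ℓ.Prime] (κ₀ κ R₀ R M₀ M : Type) [Field κ₀] [IsAlgClosed κ₀] [CharZero κ₀]
    [Field κ] [IsAlgClosed κ] [CharZero κ] [Field R₀] [Field R] [Field M₀] [Field M]
    [Algebra κ₀ κ] [Algebra κ₀ R₀] [Algebra R₀ M₀] [Algebra κ₀ M₀] [IsScalarTower κ₀ R₀ M₀]
    [Algebra κ R] [Algebra R M] [Algebra κ M] [IsScalarTower κ R M] (x₀ : R₀) (x : R)
    (B₀ : Finset κ₀) (B : Finset κ) (Y₀ : M₀) (Y : M) (ι : M₀ →+* M),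
    Pair ℓ κ₀ κ R₀ R M₀ M x₀ x B₀ B Y₀ Y ι →
    ∀ (F : Type) [Field F] (V : ValuationSubring κ) (r : V →+* F), Coef κ₀ V r →
    ∀ D : Disc ℓ V r, ∀ O : ValuationSubring M, Gauss V (algebraMap R M x) O →
      (∀ O' : ValuationSubring M, Gauss V (algebraMap R M x) O' → O' = O) →
      IntermediateField.adjoin R (Set.range ι) = ⊤

/-- restriction to `M₀` is an isomorphism from `Gal(M / κ(x))` to `Gal(M₀ / κ₀(x₀))`, and `M₀` is the
algebraic closure of `κ₀(x₀)` in `M` -/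
def S_GEN3 : Prop :=
  ∀ (ℓ : ℕ) [Fact ℓ.Prime] (κ₀ κ R₀ R M₀ M : Type) [Field κ₀] [IsAlgClosed κ₀] [CharZero κ₀]
    [Field κ] [IsAlgClosed κ] [CharZero κ] [Field R₀] [Field R] [Field M₀] [Field M]
    [Algebra κ₀ κ] [Algebra κ₀ R₀] [Algebra R₀ M₀] [Algebra κ₀ M₀] [IsScalarTower κ₀ R₀ M₀]
    [Algebra κ R] [Algebra R M] [Algebra κ M] [IsScalarTower κ R M] (x₀ : R₀) (x : R)
    (B₀ : Finset κ₀) (B : Finset κ) (Y₀ : M₀) (Y : M) (ι : M₀ →+* M),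
    Pair ℓ κ₀ κ R₀ R M₀ M x₀ x B₀ B Y₀ Y ι →
    ∀ (F : Type) [Field F] (V : ValuationSubring κ) (r : V →+* F), Coef κ₀ V r →
    ∀ D : Disc ℓ V r,
      (∀ γ : M ≃ₐ[R] M, (∀ z₀, γ (ι z₀) = ι z₀) → γ = 1) ∧
      (∀ γ₀ : M₀ ≃ₐ[R₀] M₀, ∃ γ : M ≃ₐ[R] M, ∀ z₀, γ (ι z₀) = ι (γ₀ z₀)) ∧
      (∀ z : M, (∃ p : R₀[X], p ≠ 0 ∧ p.eval₂ (ι.comp (algebraMap R₀ M₀)) z = 0) →
        ∃ z₀, ι z₀ = z)

/-! ## The weight argument at places of good reduction -/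

/-- characters of the inertia group, and conjugation by Frobenius -/
def S_KUMG : Prop :=
  ∀ (ℓ : ℕ) [Fact ℓ.Prime] (A k κ : Type) [CommRing A] [IsDomain A] [IsDiscreteValuationRing A]
    [Field k] [Field κ] [Algebra A k] [Algebra k κ] [Algebra A κ] [IsScalarTower A k κ]
    [IsFractionRing A k] [CharZero k] [IsAlgClosure k κ] [Finite (IsLocalRing.ResidueField A)]
    (V : ValuationSubring κ) (ϖ : A), IsUnit (ℓ : A) → (∀ a : A, algebraMap A κ a ∈ V) →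
    (∀ a ∈ IsLocalRing.maximalIdeal A, algebraMap A κ a ∈ V.nonunits) → Irreducible ϖ →
    ∀ φ : κ ≃ₐ[k] κ, Fro V (Nat.card (IsLocalRing.ResidueField A)) φ →
    ∀ (n : ℕ) (χ : (κ ≃ₐ[k] κ) → κ),
      (∀ σ, Ine V σ → χ σ ^ (ℓ ^ n) = 1) →
      (∀ σ σ', Ine V σ → Ine V σ' → χ (σ * σ') = χ σ * χ σ') →
      (∃ E : IntermediateField k κ, FiniteDimensional k E ∧
        ∀ σ ∈ E.fixingSubgroup, Ine V σ → χ σ = 1) →
      ∀ σ, Ine V σ → χ (φ * σ * φ⁻¹) = χ σ ^ Nat.card (IsLocalRing.ResidueField A)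

/-- the weight argument for curves with good reduction: `s(σ)` acts trivially on the residue field
for all `σ` in the inertia group -/
def S_WGTG : Prop :=
  ∀ (ℓ : ℕ) [Fact ℓ.Prime] (A k κ R M : Type) [CommRing A] [IsDomain A]
    [IsDiscreteValuationRing A] [Field k] [Field κ] [Algebra A k] [Algebra k κ] [Algebra A κ]
    [IsScalarTower A k κ] [IsFractionRing A k] [CharZero k] [IsAlgClosure k κ]
    [Finite (IsLocalRing.ResidueField A)] [Field R] [Field M] [Algebra κ R] [Algebra R M]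
    [Algebra κ M] [IsScalarTower κ R M] (V : ValuationSubring κ), IsUnit (ℓ : A) →
    (∀ a : A, algebraMap A κ a ∈ V) →
    (∀ a ∈ IsLocalRing.maximalIdeal A, algebraMap A κ a ∈ V.nonunits) →
    ∀ (x : R) (B : Finset κ) (Y : M), Cov ℓ κ R M x B Y → Good V B →
    ∀ (F : Type) [Field F] (r : V →+* F), Res V r → ∀ D : Disc ℓ V r,
    ∀ s : (κ ≃ₐ[k] κ) →* RingAut M, Sec k κ R M x Y 1 s →
    ∀ O : ValuationSubring M, Gauss V (algebraMap R M x) O →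
      (∀ O' : ValuationSubring M, Gauss V (algebraMap R M x) O' → O' = O) →
    ∀ σ, Ine V σ → ∀ z ∈ O, s σ z - z ∈ O.nonunits

/-! ## Places of `p`-adic type -/

/-- the valuation ring of an algebraic closure of `ℚ_p` -/
structure PadicV (p : ℕ) [Fact p.Prime] (C : Type) [Field C] [Algebra ℚ_[p] C]
    (VC : ValuationSubring C) : Prop where
  closure : IsAlgClosure ℚ_[p] C
  norm : ∀ z : ℚ_[p], algebraMap ℚ_[p] C z ∈ VC ↔ ‖z‖ ≤ 1

/-- a subfield of `ℚ_p` has a discrete valuation ring with finite residue field -/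
def S_DVRP : Prop :=
  ∀ (p : ℕ) [Fact p.Prime] (k : Type) [Field k] [CharZero k] (q : k →+* ℚ_[p]),
    ∃ A : ValuationSubring k, (∀ z : k, z ∈ A ↔ ‖q z‖ ≤ 1) ∧ IsDiscreteValuationRing A ∧
      Finite (IsLocalRing.ResidueField A) ∧ Irreducible (p : A) ∧
      ∀ a : A, a ∈ IsLocalRing.maximalIdeal A ↔ ‖q a‖ < 1

/-- the inertia elements of `ℚ_p` act trivially on the residue field, for curves with good
reduction -/
def S_PLC : Prop :=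
  ∀ (ℓ p : ℕ) [Fact ℓ.Prime] [Fact p.Prime], ℓ ≠ p →
    ∀ (k κ R M C : Type) [Field k] [Field κ] [Algebra k κ] [CharZero k] [IsAlgClosure k κ]
    [Field R] [Field M] [Algebra κ R] [Algebra R M] [Algebra κ M] [IsScalarTower κ R M]
    [Field C] [Algebra ℚ_[p] C] (VC : ValuationSubring C), PadicV p C VC →
    ∀ (q : k →+* ℚ_[p]) (j : κ →+* C), (∀ c, j (algebraMap k κ c) = algebraMap ℚ_[p] C (q c)) →
    ∀ (x : R) (B : Finset κ) (Y : M), Cov ℓ κ R M x B Y → Good (VC.comap j) B →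
    ∀ s : (κ ≃ₐ[k] κ) →* RingAut M, Sec k κ R M x Y 1 s →
    ∃ O : ValuationSubring M, Gauss (VC.comap j) (algebraMap R M x) O ∧
      ∀ τ : C ≃ₐ[ℚ_[p]] C, Ine VC τ → ∃ σ : κ ≃ₐ[k] κ, (∀ z, j (σ z) = τ (j z)) ∧
        ∀ z ∈ O, s σ z - z ∈ O.nonunits

/-- the Gauss valuation has only one prolongation, for places of `p`-adic type, and an automorphism
which acts trivially on the residue field is trivial -/
def S_UNI : Prop :=
  ∀ (ℓ p : ℕ) [Fact ℓ.Prime] [Fact p.Prime], ℓ ≠ p →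
    ∀ (k κ R M C : Type) [Field k] [Field κ] [Algebra k κ] [CharZero k] [IsAlgClosure k κ]
    [Field R] [Field M] [Algebra κ R] [Algebra R M] [Algebra κ M] [IsScalarTower κ R M]
    [Field C] [Algebra ℚ_[p] C] (VC : ValuationSubring C), PadicV p C VC →
    ∀ (q : k →+* ℚ_[p]) (j : κ →+* C), (∀ c, j (algebraMap k κ c) = algebraMap ℚ_[p] C (q c)) →
    ∀ (x : R) (B : Finset κ) (Y : M), Cov ℓ κ R M x B Y → Good (VC.comap j) B →
      (∀ O O' : ValuationSubring M, Gauss (VC.comap j) (algebraMap R M x) O →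
        Gauss (VC.comap j) (algebraMap R M x) O' → O = O') ∧
      ∀ O : ValuationSubring M, Gauss (VC.comap j) (algebraMap R M x) O →
        ∀ γ : M ≃ₐ[R] M, (∀ z ∈ O, γ z - z ∈ O.nonunits) → γ = 1

/-- embeddings of finitely generated fields in `ℚ_p` -/
def S_EMBP : Prop :=
  ∀ (k κ₀ : Type) [Field k] [CharZero k] [Field κ₀] [Algebra k κ₀] [IsAlgClosure k κ₀],
    (⊤ : IntermediateField ℚ k).FG → ∀ (T : Finset κ₀) (N : ℕ),
    ∃ (k₁ : IntermediateField k κ₀) (p : ℕ) (_ : Fact p.Prime) (j : k₁ →+* ℚ_[p]),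
      FiniteDimensional k k₁ ∧ N < p ∧ (∀ a ∈ T, a ∈ k₁) ∧
      ∀ a : k₁, (a : κ₀) ∈ T → a ≠ 0 → ‖j a‖ = 1

/-- transcendental elements of `ℤ_p` -/
def S_TRP : Prop :=
  ∀ (p : ℕ) [Fact p.Prime] (k : Type) [Field k] [CharZero k], (⊤ : IntermediateField ℚ k).FG →
    ∀ (j : k →+* ℚ_[p]) (c : ℚ_[p]) (n : ℕ),
      ∃ δ : ℚ_[p], ‖δ - c‖ = (p : ℝ) ^ (-(n : ℤ)) ∧ ∀ P : k[X], P ≠ 0 → P.eval₂ j δ ≠ 0

/-! ## The Kummer argument on the projective line -/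

/-- an extension of `κ₀(ρ)` whose group is a nontrivial `ℓ`-group contains the `ℓ`-th root of a
product of linear factors -/
def S_KUP : Prop :=
  ∀ (ℓ : ℕ) [Fact ℓ.Prime] (κ₀ κ : Type) [Field κ₀] [IsAlgClosed κ₀] [CharZero κ₀] [Field κ]
    [IsAlgClosed κ] [Algebra κ₀ κ] (ρ : κ), Transcendental κ₀ ρ →
    Algebra.IsAlgebraic (IntermediateField.adjoin κ₀ {ρ}) κ →
    ∀ (P : Type) [Group P] [Finite P], IsPGroup ℓ P →
    ∀ θ : (κ ≃ₐ[IntermediateField.adjoin κ₀ {ρ}] κ) →* P,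
      (∃ E : IntermediateField (IntermediateField.adjoin κ₀ {ρ}) κ,
        FiniteDimensional (IntermediateField.adjoin κ₀ {ρ}) E ∧
        ∀ g ∈ E.fixingSubgroup, θ g = 1) →
      (∃ g, θ g ≠ 1) →
      ∃ (w : κ) (A₀ : Finset κ₀) (m : κ₀ → ℕ), A₀.Nonempty ∧ (∀ a ∈ A₀, 0 < m a ∧ m a < ℓ) ∧
        w ^ ℓ = ∏ a ∈ A₀, (ρ - algebraMap κ₀ κ a) ^ m a ∧ ∀ g, θ g = 1 → g w = w

/-- `p`-adic places show that `w` is not in the field belonging to the action on `M₀` -/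
def S_PW : Prop :=
  ∀ (ℓ : ℕ) [Fact ℓ.Prime] (k κ₀ κ R₀ R M₀ M : Type) [Field k] [CharZero k] [Field κ₀]
    [Algebra k κ₀] [IsAlgClosure k κ₀] [Field κ] [IsAlgClosed κ] [Algebra κ₀ κ] [Algebra k κ]
    [IsScalarTower k κ₀ κ] [Field R₀] [Field R] [Field M₀] [Field M] [Algebra κ₀ R₀]
    [Algebra R₀ M₀] [Algebra κ₀ M₀] [IsScalarTower κ₀ R₀ M₀] [Algebra κ R] [Algebra R M]
    [Algebra κ M] [IsScalarTower κ R M], (⊤ : IntermediateField ℚ k).FG → ∀ ρ : κ,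
    Transcendental κ₀ ρ → Algebra.IsAlgebraic (IntermediateField.adjoin κ₀ {ρ}) κ →
    ∀ (x₀ : R₀) (x : R) (B₀ : Finset κ₀) (B : Finset κ) (Y₀ : M₀) (Y : M) (ι : M₀ →+* M),
    Pair ℓ κ₀ κ R₀ R M₀ M x₀ x B₀ B Y₀ Y ι →
    ∀ s : (κ ≃ₐ[IntermediateField.adjoin k {ρ}] κ) →* RingAut M,
      Sec (IntermediateField.adjoin k {ρ}) κ R M x Y 1 s →
      (∀ σ z₀, ∃ z₁, s σ (ι z₀) = ι z₁) →
    ∀ (w : κ) (A₀ : Finset κ₀) (m : κ₀ → ℕ), A₀.Nonempty → (∀ a ∈ A₀, 0 < m a ∧ m a < ℓ) →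
      w ^ ℓ = ∏ a ∈ A₀, (ρ - algebraMap κ₀ κ a) ^ m a →
      ∃ g : κ ≃ₐ[IntermediateField.adjoin k {ρ}] κ,
        (∀ c, g (algebraMap κ₀ κ c) = algebraMap κ₀ κ c) ∧ g w ≠ w ∧
        ∀ z₀, s g (ι z₀) = ι z₀

/-- the geometric part of the section acts trivially on `M₀` -/
def S_PT : Prop :=
  ∀ (ℓ : ℕ) [Fact ℓ.Prime] (k κ₀ κ R₀ R M₀ M : Type) [Field k] [CharZero k] [Field κ₀]
    [Algebra k κ₀] [IsAlgClosure k κ₀] [Field κ] [IsAlgClosed κ] [Algebra κ₀ κ] [Algebra k κ]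
    [IsScalarTower k κ₀ κ] [Field R₀] [Field R] [Field M₀] [Field M] [Algebra κ₀ R₀]
    [Algebra R₀ M₀] [Algebra κ₀ M₀] [IsScalarTower κ₀ R₀ M₀] [Algebra κ R] [Algebra R M]
    [Algebra κ M] [IsScalarTower κ R M], (⊤ : IntermediateField ℚ k).FG → ∀ ρ : κ,
    Transcendental κ₀ ρ → Algebra.IsAlgebraic (IntermediateField.adjoin κ₀ {ρ}) κ →
    ∀ (x₀ : R₀) (x : R) (B₀ : Finset κ₀) (B : Finset κ) (Y₀ : M₀) (Y : M) (ι : M₀ →+* M),
    Pair ℓ κ₀ κ R₀ R M₀ M x₀ x B₀ B Y₀ Y ι →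
    ∀ s : (κ ≃ₐ[IntermediateField.adjoin k {ρ}] κ) →* RingAut M,
      Sec (IntermediateField.adjoin k {ρ}) κ R M x Y 1 s →
      (∀ σ z₀, ∃ z₁, s σ (ι z₀) = ι z₁) →
      ∀ g : κ ≃ₐ[IntermediateField.adjoin k {ρ}] κ,
        (∀ c, g (algebraMap κ₀ κ c) = algebraMap κ₀ κ c) → ∀ z₀, s g (ι z₀) = ι z₀

/-! ## The abstract theorem -/

/-- **the abstract theorem**: every section fixes exactly one place above a branch point -/
def S_GT : Prop :=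
  ∀ (ℓ : ℕ) [Fact ℓ.Prime] (k K κ R M : Type) [Field k] [CharZero k] [Field K] [Algebra k K]
    [Field κ] [Algebra K κ] [IsAlgClosure K κ] [Field R] [Field M] [Algebra κ R] [Algebra R M]
    [Algebra κ M] [IsScalarTower κ R M], (⊤ : IntermediateField ℚ k).FG →
    ∀ t : K, Transcendental k t → IntermediateField.adjoin k {t} = ⊤ →
    ∀ (c : k) (m : ℤ) (δ : κ), c ≠ 0 → ¬ (ℓ : ℤ) ∣ m →
      δ ^ ℓ = algebraMap K κ (algebraMap k K c * t ^ m) →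
    ∀ (x : R) (B : Finset κ) (Y : M), Cov ℓ κ R M x B Y →
      (∀ e ∈ B, ∃ P : k[X], P ≠ 0 ∧ P.eval₂ ((algebraMap K κ).comp (algebraMap k K)) e = 0) →
    ∀ s : (κ ≃ₐ[K] κ) →* RingAut M, Sec K κ R M x Y δ s →
    ∃ W : Place κ M, (∃ e ∈ B, 0 < W.ord (algebraMap R M x - algebraMap κ M e) ∧
        ∀ σ : κ ≃ₐ[K] κ, σ e = e) ∧
      (∀ σ : κ ≃ₐ[K] κ, Fixes W (s σ)) ∧
      ∀ W' : Place κ M, (∃ e ∈ B, 0 < W'.ord (algebraMap R M x - algebraMap κ M e)) →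
        (∀ σ : κ ≃ₐ[K] κ, Fixes W' (s σ)) → W' = W

end Pool.Agent.Y157.GT
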