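import Pool.Agent.Y157.PS.All
import Pool.Agent.Y157.GT.Down
import Pool.Agent.Y157.GT.GeoB
import Pool.Agent.Y287.GT.WGTG
import Pool.Agent.Y287.GT.PAIR
import Pool.Agent.Y317.GT.Tpl
import Pool.Agent.Y317.GT.Gen2
import Pool.Agent.Y317.GT.Gen3
import Pool.Agent.Y657.GT.PLC
import Pool.Agent.Y978.GT.PT
import Pool.Agent.Y474.GT.PW
import Pool.Agent.Y430.GT.Kup
import Pool.Agent.Y328.GT.Embp
import Pool.Agent.Y319.GT.Dvrp

/-! # The generic twist: all parts together -/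

set_option autoImplicit false
set_option linter.all false

open Polynomial FF

namespace Pool.Agent.Y157.GT

open Pool.Agent.Y157.PS

theorem b_pair : S_PAIR := Pool.Agent.Y287.GT.pair
theorem b_ndisc2 : S_NDISC2 := Pool.Agent.Y317.GT.ndisc2' Pool.Agent.Y809.PS.val a_disc a_conj
theorem b_tpl : S_TPL := Pool.Agent.Y317.GT.tpl' a_extv b_ndisc2
theorem b_gen1 : S_GEN1 := Pool.Agent.Y317.GT.gen1
theorem b_gen2 : S_GEN2 := Pool.Agent.Y317.GT.gen2' a_prol a_res a_g2 a_g4 b_gen1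
theorem b_gen3 : S_GEN3 := Pool.Agent.Y317.GT.gen3' a_gex a_gun a_g3 b_gen1 b_gen2
theorem b_wgtg : S_WGTG := Pool.Agent.Y287.GT.wgtg
theorem b_dvrp : S_DVRP := Pool.Agent.Y319.GT.dvrp
theorem b_trp : S_TRP := Pool.Agent.Y319.GT.trp
theorem b_uni : S_UNI := Pool.Agent.Y657.GT.uni b_dvrp
theorem b_plc : S_PLC := Pool.Agent.Y657.GT.plc b_dvrp b_wgtg b_uni
theorem b_kup : S_KUP := Pool.Agent.Y430.GT.kup
theorem b_embp : S_EMBP := Pool.Agent.Y328.GT.embp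
theorem b_pw : S_PW := Pool.Agent.Y474.GT.pw b_embp b_trp b_dvrp b_plc b_uni
theorem b_pt : S_PT := Pool.Agent.Y978.GT.pt b_kup b_pw
theorem b_gt : S_GT := gt a_exf a_unq a_stab a_conj a_gex b_pair b_tpl b_gen3 b_pt

end Pool.Agent.Y157.GT
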