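import Pool.Agent.Y157.GT.Stm
import Pool.Agent.Y157.PS.Loc2

/-! # The generic twist: the group-theoretic core of the proof -/

set_option autoImplicit false
set_option linter.all false

open Polynomial FF

namespace Pool.Agent.Y157.GT

open Pool.Agent.Y157.PS

theorem core (hEXF : S_EXF) (hUNQ : S_UNQ) (hSTAB : S_STAB) (hCONJ : S_CONJ)
    (ℓ : ℕ) [Fact ℓ.Prime] (κ₀ κ R₀ R M₀ M : Type) [Field κ₀] [IsAlgClosed κ₀] [CharZero κ₀]
    [Field κ] [IsAlgClosed κ] [CharZero κ] [Field R₀] [Field R] [Field M₀] [Field M]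
    [Algebra κ₀ κ] [Algebra κ₀ R₀] [Algebra R₀ M₀] [Algebra κ₀ M₀] [IsScalarTower κ₀ R₀ M₀]
    [Algebra κ R] [Algebra R M] [Algebra κ M] [IsScalarTower κ R M] (x₀ : R₀) (x : R)
    (B₀ : Finset κ₀) (B : Finset κ) (Y₀ : M₀) (Y : M) (ι : M₀ →+* M)
    (hP : Pair ℓ κ₀ κ R₀ R M₀ M x₀ x B₀ B Y₀ Y ι)
    (h31 : ∀ γ : M ≃ₐ[R] M, (∀ z₀, γ (ι z₀) = ι z₀) → γ = 1)
    (h32 : ∀ γ₀ : M₀ ≃ₐ[R₀] M₀, ∃ γ : M ≃ₐ[R] M, ∀ z₀, γ (ι z₀) = ι (γ₀ z₀))
    (h33 : ∀ z : M, (∃ p : R₀[X], p ≠ 0 ∧ p.eval₂ (ι.comp (algebraMap R₀ M₀)) z = 0) →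
        ∃ z₀, ι z₀ = z)
    (V : ValuationSubring κ) (hRot : HasRot κ R M x B Y V)
    (K : Type) [Field K] [Algebra K κ] (δ : κ) (hδ0 : δ ≠ 0)
    (hδK : ∃ d : K, δ ^ ℓ = algebraMap K κ d)
    (s : (κ ≃ₐ[K] κ) →* RingAut M) (hs : Sec K κ R M x Y δ s)
    (hκ : ∀ (σ : κ ≃ₐ[K] κ) (c : κ₀), ∃ c' : κ₀,
      σ (algebraMap κ₀ κ c) = algebraMap κ₀ κ c')
    (hst : ∀ (σ : κ ≃ₐ[K] κ) z₀, ∃ z₁, s σ (ι z₀) = ι z₁)
    (hPT : ∀ g : κ ≃ₐ[K] κ, (∀ c : κ₀, g (algebraMap κ₀ κ c) = algebraMap κ₀ κ c) →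
      g δ = δ → ∀ z₀, s g (ι z₀) = ι z₀)
    (τ : κ ≃ₐ[K] κ) (hτ₀ : ∀ c : κ₀, τ (algebraMap κ₀ κ c) = algebraMap κ₀ κ c)
    (hτδ : τ δ ≠ δ) :
    ∃ W : Place κ M, (∃ e ∈ B, 0 < W.ord (algebraMap R M x - algebraMap κ M e) ∧
        ∀ σ : κ ≃ₐ[K] κ, σ e = e) ∧
      (∀ σ : κ ≃ₐ[K] κ, Fixes W (s σ)) ∧
      ∀ W' : Place κ M, (∃ e ∈ B, 0 < W'.ord (algebraMap R M x - algebraMap κ M e)) →
        (∀ σ : κ ≃ₐ[K] κ, Fixes W' (s σ)) → W' = W := by
  have hp := (Fact.out : ℓ.Prime).pos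
  have hC := hP.cov
  have hC₀ := hP.cov₀
  have hconst : ∀ (γ : M ≃ₐ[R] M) (c : κ), γ (algebraMap κ M c) = algebraMap κ M c := by
    intro γ c
    rw [IsScalarTower.algebraMap_apply κ R M, γ.commutes]
  have smul : ∀ (σ σ' : κ ≃ₐ[K] κ) z, s (σ * σ') z = s σ (s σ' z) := by
    intro σ σ' z
    rw [map_mul]; rfl
  have sinv : ∀ (σ : κ ≃ₐ[K] κ) z, s σ⁻¹ (s σ z) = z := by
    intro σ z
    rw [← smul, inv_mul_cancel, map_one]; rfl
  have sinv' : ∀ (σ : κ ≃ₐ[K] κ) z, s σ (s σ⁻¹ z) = z := by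
    intro σ z
    rw [← smul, mul_inv_cancel, map_one]; rfl
  have ssymm : ∀ (σ : κ ≃ₐ[K] κ) z, (s σ).symm z = s σ⁻¹ z := by
    intro σ z
    rw [RingEquiv.symm_apply_eq, sinv']
  -- ratios
  have ratio : ∀ σ : κ ≃ₐ[K] κ, (σ δ / δ) ^ ℓ = 1 := by
    intro σ
    obtain ⟨d, hd⟩ := hδK
    rw [div_pow, ← map_pow, hd, σ.commutes, ← hd, div_self (pow_ne_zero _ hδ0)]
  have root₀ : ∀ ξ : κ, ξ ^ ℓ = 1 → ∃ c : κ₀, algebraMap κ₀ κ c = ξ ∧ c ^ ℓ = 1 := by
    intro ξ hξ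
    exact const_of_pow (κ := κ₀) (z := ξ) (a := 1) hp (by rw [hξ, map_one])
  have fixroot : ∀ g : κ ≃ₐ[K] κ, (∀ c : κ₀, g (algebraMap κ₀ κ c) = algebraMap κ₀ κ c) →
      ∀ ξ : κ, ξ ^ ℓ = 1 → g ξ = ξ := by
    intro g hg ξ hξ
    obtain ⟨c, hc, -⟩ := root₀ ξ hξ
    rw [← hc, hg]
  have mul₀ : ∀ g g' : κ ≃ₐ[K] κ, (∀ c : κ₀, g (algebraMap κ₀ κ c) = algebraMap κ₀ κ c) →
      (∀ c : κ₀, g' (algebraMap κ₀ κ c) = algebraMap κ₀ κ c) →
      ∀ c : κ₀, (g * g') (algebraMap κ₀ κ c) = algebraMap κ₀ κ c := by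
    intro g g' hg hg' c
    change g (g' _) = _
    rw [hg', hg]
  have inv₀ : ∀ g : κ ≃ₐ[K] κ, (∀ c : κ₀, g (algebraMap κ₀ κ c) = algebraMap κ₀ κ c) →
      ∀ c : κ₀, g⁻¹ (algebraMap κ₀ κ c) = algebraMap κ₀ κ c := by
    intro g hg c
    change g.symm _ = _
    rw [AlgEquiv.symm_apply_eq, hg]
  have pow₀ : ∀ (n : ℕ) (c : κ₀), (τ ^ n) (algebraMap κ₀ κ c) = algebraMap κ₀ κ c := by
    intro n
    induction n with
    | zero => intro c; rfl
    | succ n ih => rw [pow_succ]; exact mul₀ _ _ ih hτ₀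
  have hζℓ : (τ δ / δ) ^ ℓ = 1 := ratio τ
  have hζ1 : τ δ / δ ≠ 1 := by
    intro h
    rw [div_eq_one_iff_eq hδ0] at h
    exact hτδ h
  have hζ0 : τ δ / δ ≠ 0 := by
    intro h
    rw [h, zero_pow hp.ne'] at hζℓ
    exact zero_ne_one hζℓ
  have hprimζ : IsPrimitiveRoot (τ δ / δ) ℓ := by
    have h1 : orderOf (τ δ / δ) = ℓ := orderOf_eq_prime hζℓ hζ1
    have h2 := IsPrimitiveRoot.orderOf (τ δ / δ)
    rwa [h1] at h2
  have hτpow : ∀ n : ℕ, (τ ^ n) δ = (τ δ / δ) ^ n * δ := by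
    intro n
    induction n with
    | zero => rw [pow_zero, pow_zero, one_mul]; rfl
    | succ n ih =>
      rw [pow_succ, pow_succ]
      change (τ ^ n) (τ δ) = _
      have h1 : τ δ = (τ δ / δ) * δ := (div_mul_cancel₀ _ hδ0).symm
      conv_lhs => rw [h1]
      rw [map_mul, ih, fixroot (τ ^ n) (pow₀ n) _ hζℓ]
      ring
  -- the automorphism of `M₀`
  have hRfix : ∀ t : R₀, s τ (ι (algebraMap R₀ M₀ t)) = ι (algebraMap R₀ M₀ t) := by
    intro t
    obtain ⟨p, q, hq, h⟩ := hC₀.rat.exists_div t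
    have hpoly : ∀ p : κ₀[X], s τ (ι (algebraMap R₀ M₀ (aeval x₀ p))) =
        ι (algebraMap R₀ M₀ (aeval x₀ p)) := by
      intro p
      have e1 : ι (algebraMap R₀ M₀ (aeval x₀ p)) =
          p.eval₂ ((ι.comp (algebraMap R₀ M₀)).comp (algebraMap κ₀ R₀))
            ((ι.comp (algebraMap R₀ M₀)) x₀) := by
        rw [aeval_def]
        exact hom_eval₂ p (algebraMap κ₀ R₀) (ι.comp (algebraMap R₀ M₀)) x₀
      have e2 : (ι.comp (algebraMap R₀ M₀)) x₀ = algebraMap R M x := hP.var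
      rw [e1, e2]
      have h3 : (s τ : M →+* M) (p.eval₂ ((ι.comp (algebraMap R₀ M₀)).comp (algebraMap κ₀ R₀))
          (algebraMap R M x)) =
          p.eval₂ ((s τ : M →+* M).comp ((ι.comp (algebraMap R₀ M₀)).comp (algebraMap κ₀ R₀)))
            ((s τ : M →+* M) (algebraMap R M x)) :=
        hom_eval₂ _ _ _ _
      change (s τ : M →+* M) _ = _
      rw [h3]
      have h4 : (s τ : M →+* M) (algebraMap R M x) = algebraMap R M x := hs.fixx τ
      rw [h4]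
      congr 1
      ext c
      change s τ (ι (algebraMap R₀ M₀ (algebraMap κ₀ R₀ c))) =
        ι (algebraMap R₀ M₀ (algebraMap κ₀ R₀ c))
      rw [← IsScalarTower.algebraMap_apply κ₀ R₀ M₀, hP.const, hs.const, hτ₀]
    rw [h, map_div₀, map_div₀, map_div₀, hpoly, hpoly]
  choose f hf using hst
  have hfinj : ∀ a b : M₀, ι a = ι b → a = b := fun a b h => ι.injective h
  let α : M₀ ≃+* M₀ :=
    { toFun := fun z => f τ z
      invFun := fun z => f τ⁻¹ z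
      left_inv := fun z => hfinj _ _ (by rw [← hf, ← hf, sinv])
      right_inv := fun z => hfinj _ _ (by rw [← hf, ← hf, sinv'])
      map_mul' := fun a b => hfinj _ _ (by rw [← hf, map_mul, map_mul, map_mul, hf, hf])
      map_add' := fun a b => hfinj _ _ (by rw [← hf, map_add, map_add, map_add, hf, hf]) }
  let α₁ : M₀ ≃ₐ[R₀] M₀ := AlgEquiv.ofRingEquiv (f := α) (fun t => hfinj _ _ (by
    change ι (f τ _) = _
    rw [← hf, hRfix]))
  obtain ⟨γ, hγ'⟩ := h32 α₁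
  have hγ : ∀ z, γ (ι z) = s τ (ι z) := by
    intro z
    rw [hγ', hf]; rfl
  have hγn : ∀ (n : ℕ) z, (γ ^ n) (ι z) = s (τ ^ n) (ι z) := by
    intro n
    induction n with
    | zero =>
      intro z
      rw [pow_zero, pow_zero, map_one]; rfl
    | succ n ih =>
      intro z
      rw [pow_succ, pow_succ, smul]
      change (γ ^ n) (γ (ι z)) = _
      rw [hγ, hf τ z, ih]
  have hγℓ : γ ^ ℓ = 1 := by
    apply h31
    intro z
    rw [hγn]
    apply hPT (τ ^ ℓ) (pow₀ ℓ)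
    rw [hτpow, hζℓ, one_mul]
  have hY0 : Y ≠ 0 := by
    intro h
    have h1 := hC.eqn
    rw [h, zero_pow hp.ne'] at h1
    have h2 := Finset.prod_eq_zero_iff.1 h1.symm
    obtain ⟨e, -, he⟩ := h2
    have htr : Transcendental κ (algebraMap R M x) := by
      rw [transcendental_algebraMap_iff (algebraMap R M).injective]
      exact hC.rat.trans
    apply htr
    rw [sub_eq_zero] at he
    rw [he]
    exact isAlgebraic_algebraMap e
  have hγY : γ Y = algebraMap κ M (τ δ / δ) * Y := by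
    have h1 := hγ Y₀
    rw [hP.root, hs.fixy] at h1
    exact h1
  have hγ1 : γ ≠ 1 := by
    intro h
    rw [h] at hγY
    change Y = _ at hγY
    have h1 : algebraMap κ M (τ δ / δ) = 1 := by
      have h2 : algebraMap κ M (τ δ / δ) * Y = 1 * Y := by rw [← hγY, one_mul]
      exact mul_right_cancel₀ hY0 h2
    apply hζ1
    rw [← map_one (algebraMap κ M)] at h1
    exact (algebraMap κ M).injective h1
  obtain ⟨W, hW⟩ := hEXF ℓ κ R M x B Y hC γ hγℓ hγ1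
  obtain ⟨-, e, he, hWe, hWY⟩ := hC.fixed hSTAB W γ hW hγ1
  have hfix : ∀ σ : κ ≃ₐ[K] κ, Fixes W (s σ) := by
    intro σ
    obtain ⟨η, hη⟩ := conjR hC.rat (s σ) (σ : κ ≃+* κ) (hs.const σ) (hs.fixx σ) γ
    have hη' : ∀ z, s σ (η z) = γ (s σ z) := by
      intro z
      rw [hη, RingEquiv.apply_symm_apply]
    -- `σ⁻¹ τ σ` multiplies `δ` by a power of `ζ`
    have hcon₀ : ∀ c : κ₀, (σ⁻¹ * τ * σ) (algebraMap κ₀ κ c) = algebraMap κ₀ κ c := by
      intro c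
      obtain ⟨c', hc'⟩ := hκ σ c
      change σ.symm (τ (σ _)) = _
      rw [hc', hτ₀, AlgEquiv.symm_apply_eq, hc']
    have hpw : ∃ a : ℕ, (σ⁻¹ * τ * σ) δ = (τ δ / δ) ^ a * δ := by
      have h1 : (((σ⁻¹ * τ * σ) δ) / δ) ^ ℓ = 1 := ratio _
      obtain ⟨a, -, ha⟩ := hprimζ.eq_pow_of_pow_eq_one h1
      exact ⟨a, by rw [ha, div_mul_cancel₀ _ hδ0]⟩
    obtain ⟨a, ha⟩ := hpw
    have hηγ : η = γ ^ a := by
      have key : ∀ z, η (ι z) = (γ ^ a) (ι z) := by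
        intro z
        have h1 : η (ι z) = s (σ⁻¹ * τ * σ) (ι z) := by
          rw [hη, hf σ z, hγ, ← hf σ z, ssymm, smul, smul]
        have h2 : σ⁻¹ * τ * σ = τ ^ a * ((τ ^ a)⁻¹ * (σ⁻¹ * τ * σ)) := by
          rw [mul_inv_cancel_left]
        have h3 : s ((τ ^ a)⁻¹ * (σ⁻¹ * τ * σ)) (ι z) = ι z := by
          apply hPT
          · exact mul₀ _ _ (inv₀ _ (pow₀ a)) hcon₀
          · change (τ ^ a).symm ((σ⁻¹ * τ * σ) δ) = δ
            rw [ha, AlgEquiv.symm_apply_eq, hτpow]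
        rw [h1, h2, smul, h3, hγn]
      have h4 : (γ ^ a)⁻¹ * η = 1 := by
        apply h31
        intro z
        change (γ ^ a).symm (η (ι z)) = ι z
        rw [AlgEquiv.symm_apply_eq, key]
      exact (inv_mul_eq_one.1 h4).symm
    have hηℓ : η ^ ℓ = 1 := by rw [hηγ, ← pow_mul, mul_comm, pow_mul, hγℓ, one_pow]
    have hη1 : η ≠ 1 := by
      intro h
      apply hγ1
      ext z
      have h1 := hη' (s σ⁻¹ z)
      rw [h, sinv'] at h1
      change s σ (s σ⁻¹ z) = _ at h1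
      rw [sinv'] at h1
      exact h1.symm
    let Wσ := Place.comapEquiv W (s σ) (σ : κ ≃+* κ) (hs.const σ)
    have h1 : Wσ = W := by
      refine hUNQ ℓ κ R M x B Y hC η hηℓ hη1 Wσ W ?_ ?_
      · intro z
        change W.ord (s σ (η z)) = W.ord (s σ z)
        rw [hη', hW]
      · rw [hηγ]; exact hW.pow a
    intro z
    change Wσ.ord z = W.ord z
    rw [h1]
  refine ⟨W, ⟨e, he, hWe, ?_⟩, hfix, ?_⟩
  · intro σ
    by_contra hne
    have h1 := hfix σ (algebraMap R M x - algebraMap κ M e)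
    rw [map_sub, hs.fixx, hs.const] at h1
    have h2 := ord_sub_const hWe (Ne.symm hne)
    omega
  · -- uniqueness
    rintro W' ⟨e', he', hWe'⟩ hfix'
    obtain ⟨-, c, We, -, -, hc, hWc, hcY⟩ := hRot e' he'
    have hnor : Normal R M := by
      have := hC.gal
      infer_instance
    obtain ⟨g, hg⟩ := hCONJ R M W'.O We.O (trace_eq hC.rat e' hWe' hWc)
    have hgW : ∀ z, We.ord z = W'.ord (g z) := by
      let W1 := Place.comapEquiv W' (g : M ≃+* M) (RingEquiv.refl κ) (hconst g)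
      have h1 : We = W1 := by
        apply Place.ext_O
        ext z
        rw [hg, Place.mem_O, Place.mem_O]
        unfold Place.Reg
        change g z = 0 ∨ _ ↔ z = 0 ∨ _
        rw [map_eq_zero_iff g g.injective]
        rfl
      intro z
      rw [h1]; rfl
    let c' : M ≃ₐ[R] M := g * c * g⁻¹
    have hc'z : ∀ z, c' z = g (c (g⁻¹ z)) := fun z => rfl
    have hginv : ∀ z, g (g⁻¹ z) = z := fun z => g.apply_symm_apply z
    have hc' : Fixes W' c' := by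
      intro z
      rw [hc'z, ← hgW, hc, hgW, hginv]
    have hY' : W'.ord Y = 1 := hC.ordY W' he' hWe'
    have hc'Y : c' Y ≠ Y := by
      intro h
      obtain ⟨ξ, hξ, h1⟩ := hC.actY hY0 g⁻¹
      rw [hc'z, h1, map_mul, hconst, map_mul, hconst] at h
      have h2 : g (g⁻¹ Y) = Y := hginv Y
      rw [h1, map_mul, hconst] at h2
      have hξ0 : algebraMap κ M ξ ≠ 0 := by
        intro h0
        rw [h0, zero_mul] at h2
        exact hY0 h2.symm
      have h3 : g (c Y) = g Y := mul_left_cancel₀ hξ0 (h.trans h2.symm)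
      exact hcY (g.injective h3)
    obtain ⟨ζ', hζ', hc'Y'⟩ := hC.actY hY0 c'
    have hζ'1 : ζ' ≠ 1 := by
      rintro rfl
      apply hc'Y
      rw [hc'Y', map_one, one_mul]
    have hprim : IsPrimitiveRoot ζ' ℓ := by
      have h1 : orderOf ζ' = ℓ := orderOf_eq_prime hζ' hζ'1
      rw [← h1]
      exact IsPrimitiveRoot.orderOf ζ'
    obtain ⟨i, -, hi⟩ := hprim.eq_pow_of_pow_eq_one hζℓ
    let c2 : M ≃ₐ[R] M := c' ^ i
    have hc2 : Fixes W' c2 := hc'.pow i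
    have hpowY : ∀ n : ℕ, (c' ^ n) Y = algebraMap κ M (ζ' ^ n) * Y := by
      intro n
      induction n with
      | zero => rw [pow_zero, pow_zero, map_one, one_mul]; rfl
      | succ n ih =>
        rw [pow_succ, pow_succ]
        change (c' ^ n) (c' Y) = _
        rw [hc'Y', map_mul, hconst, ih, map_mul]
        ring
    have hc2Y : c2 Y = algebraMap κ M (τ δ / δ) * Y := by
      rw [← hi]; exact hpowY i
    have hc2ℓ : c2 ^ ℓ = 1 := by
      refine hC.stabR hSTAB W' _ (hc2.pow ℓ) Y hY' ?_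
      have h1 : c2 ^ ℓ = c' ^ (i * ℓ) := (pow_mul c' i ℓ).symm
      rw [h1, hpowY, pow_mul, hi, hζℓ, map_one, one_mul]
    -- `s τ` commutes with `c2`
    obtain ⟨θ, hθ⟩ := conjR hC.rat (s τ⁻¹) ((τ⁻¹ : κ ≃ₐ[K] κ) : κ ≃+* κ) (hs.const τ⁻¹)
      (hs.fixx τ⁻¹) c2
    have hθ' : ∀ z, θ z = s τ (c2 (s τ⁻¹ z)) := by
      intro z
      rw [hθ, ssymm, inv_inv]
    have hτζ : τ (τ δ / δ) = τ δ / δ := fixroot τ hτ₀ _ hζℓ
    have hτinv : τ⁻¹ δ / δ = (τ δ / δ)⁻¹ := by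
      have h1 : τ (τ⁻¹ δ / δ) = τ ((τ δ / δ)⁻¹) := by
        rw [map_inv₀, hτζ, map_div₀, inv_div]
        congr 1
        exact τ.apply_symm_apply δ
      exact τ.injective h1
    have hθY : θ Y = algebraMap κ M (τ δ / δ) * Y := by
      rw [hθ', hs.fixy, hτinv, map_mul, hconst, hc2Y, ← mul_assoc, ← map_mul,
        inv_mul_cancel₀ hζ0, map_one, one_mul, hs.fixy]
    have hθW : Fixes W' θ := by
      intro z
      rw [hθ', hfix' τ, hc2, hfix' τ⁻¹]
    have hθc : θ = c2 := by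
      have h1 : c2⁻¹ * θ = 1 := by
        refine hC.stabR hSTAB W' _ (hc2.inv.mul hθW) Y hY' ?_
        change c2.symm (θ Y) = Y
        rw [AlgEquiv.symm_apply_eq, hθY, hc2Y]
      exact (inv_mul_eq_one.1 h1).symm
    have hcomm : ∀ z, s τ (c2 z) = c2 (s τ z) := by
      intro z
      have h1 := hθ' (s τ z)
      rw [sinv, hθc] at h1
      exact h1.symm
    -- `c2` stabilises `M₀`
    have halg : ∀ z₀ : M₀, ∃ z₁, ι z₁ = c2 (ι z₀) := by
      intro z₀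
      apply h33
      have h0 : Algebra.IsAlgebraic R₀ M₀ := by
        have := hC₀.gal
        infer_instance
      obtain ⟨p, hp0, hpz⟩ := h0.isAlgebraic z₀
      refine ⟨p, hp0, ?_⟩
      have h2 : (c2 : M →+* M).comp (ι.comp (algebraMap R₀ M₀)) =
          ι.comp (algebraMap R₀ M₀) := by
        ext t
        obtain ⟨a, b, hb, ht⟩ := hC₀.rat.exists_div t
        have hpoly : ∀ q : κ₀[X], ∃ t' : R, ι (algebraMap R₀ M₀ (aeval x₀ q)) =
            algebraMap R M t' := by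
          intro q
          refine ⟨q.eval₂ ((algebraMap κ R).comp (algebraMap κ₀ κ)) x, ?_⟩
          have e1 : ι (algebraMap R₀ M₀ (aeval x₀ q)) =
              q.eval₂ ((ι.comp (algebraMap R₀ M₀)).comp (algebraMap κ₀ R₀))
                ((ι.comp (algebraMap R₀ M₀)) x₀) := by
            rw [aeval_def]
            exact hom_eval₂ q (algebraMap κ₀ R₀) (ι.comp (algebraMap R₀ M₀)) x₀
          have e2 : (ι.comp (algebraMap R₀ M₀)) x₀ = algebraMap R M x := hP.var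
          have e3 : algebraMap R M (q.eval₂ ((algebraMap κ R).comp (algebraMap κ₀ κ)) x) =
              q.eval₂ ((algebraMap R M).comp ((algebraMap κ R).comp (algebraMap κ₀ κ)))
                (algebraMap R M x) := hom_eval₂ _ _ _ _
          rw [e1, e2, e3]
          congr 1
          ext d
          change ι (algebraMap R₀ M₀ (algebraMap κ₀ R₀ d)) =
            algebraMap R M (algebraMap κ R (algebraMap κ₀ κ d))
          rw [← IsScalarTower.algebraMap_apply κ₀ R₀ M₀, hP.const,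
            ← IsScalarTower.algebraMap_apply κ R M]
        obtain ⟨t1, ht1⟩ := hpoly a
        obtain ⟨t2, ht2⟩ := hpoly b
        change c2 (ι (algebraMap R₀ M₀ t)) = ι (algebraMap R₀ M₀ t)
        rw [ht, map_div₀, map_div₀, ht1, ht2, ← map_div₀, c2.commutes]
      have h3 : (c2 : M →+* M) (p.eval₂ (ι.comp (algebraMap R₀ M₀)) (ι z₀)) =
          p.eval₂ ((c2 : M →+* M).comp (ι.comp (algebraMap R₀ M₀))) ((c2 : M →+* M) (ι z₀)) :=
        hom_eval₂ _ _ _ _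
      rw [h2] at h3
      have h4 : p.eval₂ (ι.comp (algebraMap R₀ M₀)) (ι z₀) = ι (aeval z₀ p) := by
        rw [aeval_def]
        exact (hom_eval₂ p (algebraMap R₀ M₀) ι z₀).symm
      rw [h4, hpz, map_zero, map_zero] at h3
      exact h3.symm
    have hcomm' : γ * c2 = c2 * γ := by
      have h1 : (c2 * γ)⁻¹ * (γ * c2) = 1 := by
        apply h31
        intro z
        change (c2 * γ).symm (γ (c2 (ι z))) = ι z
        rw [AlgEquiv.symm_apply_eq]
        obtain ⟨z₁, hz₁⟩ := halg z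
        change γ (c2 (ι z)) = c2 (γ (ι z))
        rw [← hz₁, hγ, hz₁, hcomm, hγ]
      exact (inv_mul_eq_one.1 h1).symm
    have hηY : (γ * c2⁻¹) Y = Y := by
      change γ (c2.symm Y) = Y
      have h1 : c2.symm Y = algebraMap κ M (τ δ / δ)⁻¹ * Y := by
        rw [AlgEquiv.symm_apply_eq, map_mul, hconst, hc2Y, ← mul_assoc, ← map_mul,
          inv_mul_cancel₀ hζ0, map_one, one_mul]
      rw [h1, map_mul, hconst, hγY, ← mul_assoc, ← map_mul, inv_mul_cancel₀ hζ0, map_one, one_mul]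
    have hη1 : γ * c2⁻¹ = 1 := by
      by_contra hne
      have hηℓ : (γ * c2⁻¹) ^ ℓ = 1 := by
        have hcm : Commute γ c2⁻¹ := (show Commute γ c2 from hcomm').inv_right
        rw [hcm.mul_pow, hγℓ, inv_pow, hc2ℓ, inv_one, mul_one]
      obtain ⟨W2, hW2⟩ := hEXF ℓ κ R M x B Y hC _ hηℓ hne
      exact (hC.fixed hSTAB W2 _ hW2 hne).1 hηY
    have hγc : γ = c2 := by
      rw [mul_inv_eq_one] at hη1
      exact hη1
    exact hUNQ ℓ κ R M x B Y hC γ hγℓ hγ1 W' W (by rw [hγc]; exact hc2) hW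

end Pool.Agent.Y157.GT
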